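import Pool.Agent.Helper9.PP.Basic
import Pool.Agent.Helper9.FJ.Obst

/-!
Project PP (helper9): package CORE.
-/

set_option autoImplicit false
set_option linter.unusedSectionVars false

namespace Pool.Agent.Helper80.PP

open FF Module MvPolynomial Pool.Agent.Helper9.FJ Pool.Agent.Helper9.PP
open scoped Kronecker

variable {K : Type} [Field K] [Algebra ℂ K] {l : ℕ} {r : Fin l → ℕ} {P : Place ℂ K}

/-! ### integral polynomials -/

/-- all coefficients have order at least `c` -/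
def GeM {σ : Type} (P : Place ℂ K) (c : ℤ) (s : MvPolynomial σ K) : Prop := ∀ α, Ge P c (s.coeff α)

theorem GeM.mono {σ : Type} {c c' : ℤ} {s : MvPolynomial σ K} (h : GeM P c s) (hc : c' ≤ c) :
    GeM P c' s := fun α => (h α).mono hc

theorem GeM.sum {σ ι : Type} {c : ℤ} (S : Finset ι) {s : ι → MvPolynomial σ K}
    (h : ∀ i ∈ S, GeM P c (s i)) : GeM P c (∑ i ∈ S, s i) := fun α => by
  rw [coeff_sum]
  exact Ge.sum _ fun i hi => h i hi α

theorem GeM.mul {σ : Type} {c c' : ℤ} {s s' : MvPolynomial σ K} (h : GeM P c s)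
    (h' : GeM P c' s') : GeM P (c + c') (s * s') := fun α => by
  classical
  rw [coeff_mul]
  exact Ge.sum _ fun x _ => (h _).mul (h' _)

theorem geM_C {σ : Type} {c : ℤ} {a : K} (h : Ge P c a) : GeM P c (C a : MvPolynomial σ K) := by
  classical
  intro α
  rw [coeff_C]
  split_ifs
  · exact h
  · exact ge_zero

theorem geM_X {σ : Type} (j : σ) : GeM P 0 (X j : MvPolynomial σ K) := by
  classical
  intro α
  rw [coeff_X]
  split_ifs
  · exact ge_one
  · exact ge_zero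

theorem GeM.prod0 {σ ι : Type} (S : Finset ι) {s : ι → MvPolynomial σ K}
    (h : ∀ i ∈ S, GeM P 0 (s i)) : GeM P 0 (∏ i ∈ S, s i) := by
  classical
  induction S using Finset.induction_on with
  | empty =>
    rw [Finset.prod_empty, ← C_1]
    exact geM_C ge_one
  | insert a S ha ih =>
    rw [Finset.prod_insert ha]
    have := (h a (Finset.mem_insert_self _ _)).mul (ih fun i hi => h i (Finset.mem_insert_of_mem hi))
    rwa [add_zero] at this

/-! ### multihomogeneous polynomials -/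

theorem IsMh.mul' {a b : Fin l → ℕ} {s s' : MvPolynomial (Vr r) K} (h : IsMh a s)
    (h' : IsMh b s') : IsMh (a + b) (s * s') := by
  classical
  intro α hα j
  rw [coeff_mul] at hα
  obtain ⟨x, hx, hx0⟩ := Finset.exists_ne_zero_of_sum_ne_zero hα
  have h1 := h x.1 (left_ne_zero_of_mul hx0) j
  have h2 := h' x.2 (right_ne_zero_of_mul hx0) j
  rw [Finset.HasAntidiagonal.mem_antidiagonal] at hx
  rw [← hx, Pi.add_apply, ← h1, ← h2, ← Finset.sum_add_distrib]
  exact Finset.sum_congr rfl fun i _ => Finsupp.add_apply _ _ _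

theorem IsMh.sum' {ι : Type} {a : Fin l → ℕ} (S : Finset ι) {s : ι → MvPolynomial (Vr r) K}
    (h : ∀ i ∈ S, IsMh a (s i)) : IsMh a (∑ i ∈ S, s i) := by
  intro α hα j
  rw [coeff_sum] at hα
  obtain ⟨i, hi, hi0⟩ := Finset.exists_ne_zero_of_sum_ne_zero hα
  exact h i hi α hi0 j

theorem IsMh.Cmul {a : Fin l → ℕ} {s : MvPolynomial (Vr r) K} (h : IsMh a s) (c : K) :
    IsMh a (C c * s) := by
  intro α hα j
  rw [coeff_C_mul] at hα
  exact h α (right_ne_zero_of_mul hα) j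

/-! ### words -/

/-- words -/
abbrev Wd {N : ℕ} (r : Fin l → ℕ) (t : Fin N → Fin l) : Type := ∀ k, Fin (r (t k))

/-- the monomial of a word -/
noncomputable def mon {N : ℕ} (t : Fin N → Fin l) (I : Wd r t) : MvPolynomial (Vr r) K :=
  ∏ k, X ⟨t k, I k⟩

theorem mon_eq {N : ℕ} (t : Fin N → Fin l) (I : Wd r t) :
    (mon t I : MvPolynomial (Vr r) K) =
      monomial (∑ k, Finsupp.single (⟨t k, I k⟩ : Vr r) 1) 1 := by
  rw [mon, monomial_sum_one]
  rfl

theorem mon_mh {N : ℕ} (t : Fin N → Fin l) (I : Wd r t) {a : Fin l → ℕ}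
    (ht : ∀ j, (Finset.univ.filter fun k => t k = j).card = a j) :
    IsMh a (mon t I : MvPolynomial (Vr r) K) := by
  classical
  intro α hα j
  rw [mon_eq, coeff_monomial] at hα
  have h1 : ∑ k, Finsupp.single (⟨t k, I k⟩ : Vr r) 1 = α := by
    by_contra h
    exact hα (if_neg h)
  rw [← h1, ← ht j, Finset.card_filter]
  simp only [Finsupp.finsetSum_apply]
  rw [Finset.sum_comm]
  refine Finset.sum_congr rfl fun k _ => ?_
  split_ifs with h
  · rw [Finset.sum_eq_single (h ▸ I k)]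
    · subst h
      rw [Finsupp.single_eq_same]
    · intro i _ hi
      subst h
      rw [Finsupp.single_apply, if_neg]
      intro h2
      exact hi (eq_of_heq (Sigma.mk.inj h2).2).symm
    · intro h2
      exact absurd (Finset.mem_univ _) h2
  · refine Finset.sum_eq_zero fun i _ => ?_
    rw [Finsupp.single_apply, if_neg]
    intro h2
    exact h (Sigma.mk.inj h2).1

/-- the polynomial of a vector in the tensor product -/
noncomputable def pw {N : ℕ} (t : Fin N → Fin l) (w : Wd r t → K) : MvPolynomial (Vr r) K :=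
  ∑ J, C (w J) * mon t J

theorem pw_mh {N : ℕ} (t : Fin N → Fin l) (w : Wd r t → K) {a : Fin l → ℕ}
    (ht : ∀ j, (Finset.univ.filter fun k => t k = j).card = a j) :
    IsMh a (pw t w) :=
  IsMh.sum' _ fun J _ => IsMh.Cmul (mon_mh t J ht) _

theorem eval_pw {N : ℕ} (t : Fin N → Fin l) (w : Wd r t → K) (z : Vr r → K) :
    eval z (pw t w) = ∑ J, w J * ∏ k, z ⟨t k, J k⟩ := by
  rw [pw, map_sum]
  refine Finset.sum_congr rfl fun J _ => ?_
  rw [map_mul, eval_C, mon, map_prod]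
  simp only [eval_X]

theorem pw_comb {N : ℕ} (t : Fin N → Fin l) (U : Wd r t → K) (B : Matrix (Wd r t) (Wd r t) K) :
    pw t (fun J => ∑ I, U I * B I J) = ∑ I, C (U I) * pw t (B I) := by
  simp only [pw, Finset.mul_sum, map_sum, Finset.sum_mul]
  rw [Finset.sum_comm]
  refine Finset.sum_congr rfl fun I _ => Finset.sum_congr rfl fun J _ => ?_
  rw [map_mul, mul_assoc]

/-- the linear form in the variables of the group `j` -/
theorem pw_prod {N : ℕ} (t : Fin N → Fin l) (B : ∀ j, Matrix (Fin (r j)) (Fin (r j)) K)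
    (I : Wd r t) :
    pw t (fun J => ∏ k, B (t k) (I k) (J k)) =
      ∏ k, ∑ i, C (B (t k) (I k) i) * (X ⟨t k, i⟩ : MvPolynomial (Vr r) K) := by
  classical
  rw [Finset.prod_univ_sum, Fintype.piFinset_univ]
  rw [pw]
  refine Finset.sum_congr rfl fun J _ => ?_
  rw [Finset.prod_mul_distrib, map_prod, mon]

theorem locM_add (E : ∀ j, Bundle K (r j)) (P : Place ℂ K) (s s' : MvPolynomial (Vr r) K) :
    locM E P (s + s') = locM E P s + locM E P s' := map_add _ _ _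

theorem locM_mul (E : ∀ j, Bundle K (r j)) (P : Place ℂ K) (s s' : MvPolynomial (Vr r) K) :
    locM E P (s * s') = locM E P s * locM E P s' := map_mul _ _ _

theorem locM_C (E : ∀ j, Bundle K (r j)) (P : Place ℂ K) (a : K) :
    locM E P (C a : MvPolynomial (Vr r) K) = C a := by
  rw [locM]
  exact aeval_C _ _

theorem locM_X (E : ∀ j, Bundle K (r j)) (P : Place ℂ K) (x : Vr r) :
    locM E P (X x : MvPolynomial (Vr r) K) =
      ∑ i, C (((E x.1).B P)⁻¹ x.2 i) * X ⟨x.1, i⟩ := by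
  rw [locM, aeval_X]

theorem locM_sum (E : ∀ j, Bundle K (r j)) (P : Place ℂ K) {ι : Type} (S : Finset ι)
    (s : ι → MvPolynomial (Vr r) K) : locM E P (∑ i ∈ S, s i) = ∑ i ∈ S, locM E P (s i) :=
  map_sum _ _ _

theorem locM_prod (E : ∀ j, Bundle K (r j)) (P : Place ℂ K) {ι : Type} (S : Finset ι)
    (s : ι → MvPolynomial (Vr r) K) : locM E P (∏ i ∈ S, s i) = ∏ i ∈ S, locM E P (s i) :=
  map_prod _ _ _

theorem locM_row (E : ∀ j, Bundle K (r j)) (P : Place ℂ K) (j : Fin l) (i : Fin (r j)) :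
    locM E P (∑ i', C ((E j).B P i i') * (X ⟨j, i'⟩ : MvPolynomial (Vr r) K)) = X ⟨j, i⟩ := by
  classical
  rw [locM_sum]
  have h1 : ∀ i', locM E P (C ((E j).B P i i') * (X ⟨j, i'⟩ : MvPolynomial (Vr r) K)) =
      ∑ i2, C ((E j).B P i i' * ((E j).B P)⁻¹ i' i2) * X ⟨j, i2⟩ := by
    intro i'
    rw [locM_mul, locM_C, locM_X, Finset.mul_sum]
    refine Finset.sum_congr rfl fun i2 _ => ?_
    rw [map_mul, mul_assoc]
  rw [Finset.sum_congr rfl fun i' _ => h1 i', Finset.sum_comm]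
  have h2 : ∀ i2, ∑ i', C ((E j).B P i i' * ((E j).B P)⁻¹ i' i2) *
      (X ⟨j, i2⟩ : MvPolynomial (Vr r) K) = if i = i2 then X ⟨j, i2⟩ else 0 := by
    intro i2
    rw [← Finset.sum_mul, ← map_sum]
    have h3 : ∑ i', (E j).B P i i' * ((E j).B P)⁻¹ i' i2 = (1 : Matrix _ _ K) i i2 := by
      rw [← Matrix.mul_nonsing_inv _ (isUnit_iff_ne_zero.2 ((E j).det_ne P)), Matrix.mul_apply]
    rw [h3, Matrix.one_apply]
    split_ifs
    · rw [C_1, one_mul]
    · rw [C_0, zero_mul]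
  rw [Finset.sum_congr rfl fun i2 _ => h2 i2, Finset.sum_ite_eq Finset.univ i,
    if_pos (Finset.mem_univ _)]

theorem locM_pw_row (E : ∀ j, Bundle K (r j)) (P : Place ℂ K) {N : ℕ} (t : Fin N → Fin l)
    (I : Wd r t) :
    locM E P (pw t (fun J => ∏ k, (E (t k)).B P (I k) (J k))) = mon t I := by
  rw [pw_prod t (fun j => (E j).B P) I, locM_prod, mon]
  exact Finset.prod_congr rfl fun k _ => locM_row E P (t k) (I k)


/-- the word of `a` -/
def tw (a : Fin l → ℕ) : Fin (∑ j, a j) → Fin l := fun k => (finSigmaFinEquiv.symm k).1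

theorem tw_sum (a : Fin l → ℕ) (μ : Fin l → ℝ) : ∑ k, μ (tw a k) = ∑ j, a j * μ j := by
  have h1 := Equiv.sum_comp (finSigmaFinEquiv (n := a)).symm (fun x : Σ j, Fin (a j) => μ x.1)
  change ∑ k, μ (tw a k) = _ at h1
  rw [h1, Fintype.sum_sigma]
  simp

theorem tw_card (a : Fin l → ℕ) (j : Fin l) :
    (Finset.univ.filter fun k => tw a k = j).card = a j := by
  classical
  rw [Finset.card_filter]
  have h1 := Equiv.sum_comp (finSigmaFinEquiv (n := a)).symm
    (fun x : Σ j, Fin (a j) => if x.1 = j then 1 else 0)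
  change ∑ k, (if tw a k = j then 1 else 0) = _ at h1
  rw [h1, Fintype.sum_sigma, Finset.sum_eq_single j]
  · simp
  · intro b _ hb
    exact Finset.sum_eq_zero fun i _ => if_neg hb
  · intro h
    exact absurd (Finset.mem_univ _) h

theorem tw_prod {M : Type} [CommMonoid M] (a : Fin l → ℕ) (f : ∀ j, Fin (a j) → M) :
    ∏ k, f (tw a k) (finSigmaFinEquiv.symm k).2 = ∏ j, ∏ i, f j i := by
  have h1 := Equiv.prod_comp (finSigmaFinEquiv (n := a)).symm
    (fun x : Σ j, Fin (a j) => f x.1 x.2)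
  change ∏ k, f (tw a k) (finSigmaFinEquiv.symm k).2 = _ at h1
  rw [h1, Fintype.prod_sigma]

/-- every exponent is a product of words -/
theorem exists_words (a1 a2 a3 : Fin l → ℕ) (α : Vr r →₀ ℕ)
    (hα : ∀ j, ∑ i, α ⟨j, i⟩ = (a1 + a2 + a3) j) :
    ∃ (I1 : Wd r (tw a1)) (I2 : Wd r (tw a2)) (I3 : Wd r (tw a3)),
      mon (tw a1) I1 * mon (tw a2) I2 * mon (tw a3) I3 = (monomial α 1 : MvPolynomial (Vr r) K) := by
  classical
  have h1 : ∀ j, ∃ J : Fin (a1 j + a2 j + a3 j) → Fin (r j), ∏ i, X (J i) =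
      (monomial (Finsupp.equivFunOnFinite.symm fun i => α ⟨j, i⟩) 1 : MvPolynomial (Fin (r j)) K) :=
    fun j => exists_word _ (hα j)
  choose J hJ using h1
  refine ⟨fun k => J _ (Fin.castAdd _ (Fin.castAdd _ (finSigmaFinEquiv.symm k).2)),
    fun k => J _ (Fin.castAdd _ (Fin.natAdd _ (finSigmaFinEquiv.symm k).2)),
    fun k => J _ (Fin.natAdd _ (finSigmaFinEquiv.symm k).2), ?_⟩
  have h2 := tw_prod a1 (fun j i => (X ⟨j, J j (Fin.castAdd _ (Fin.castAdd _ i))⟩ :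
    MvPolynomial (Vr r) K))
  have h3 := tw_prod a2 (fun j i => (X ⟨j, J j (Fin.castAdd _ (Fin.natAdd _ i))⟩ :
    MvPolynomial (Vr r) K))
  have h4 := tw_prod a3 (fun j i => (X ⟨j, J j (Fin.natAdd _ i)⟩ : MvPolynomial (Vr r) K))
  rw [mon, mon, mon, h2, h3, h4, ← Finset.prod_mul_distrib, ← Finset.prod_mul_distrib]
  have h5 : ∀ j, (∏ i, (X ⟨j, J j (Fin.castAdd _ (Fin.castAdd _ i))⟩ : MvPolynomial (Vr r) K)) *
      (∏ i, X ⟨j, J j (Fin.castAdd _ (Fin.natAdd _ i))⟩) * ∏ i, X ⟨j, J j (Fin.natAdd _ i)⟩ =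
      ∏ i : Fin (r j), X ⟨j, i⟩ ^ α ⟨j, i⟩ := by
    intro j
    have h6 := congrArg (rename fun i => (⟨j, i⟩ : Vr r)) (hJ j)
    rw [map_prod, Fin.prod_univ_add, Fin.prod_univ_add] at h6
    simp only [rename_X] at h6
    rw [h6, rename_monomial, monomial_eq, C_1, one_mul, Finsupp.mapDomain,
      Finsupp.prod_sum_index]
    · rw [Finsupp.prod_fintype]
      · refine Finset.prod_congr rfl fun i _ => ?_
        rw [Finsupp.prod_single_index]
        · rfl
        · rw [pow_zero]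
      · intro i
        rw [Finsupp.single_zero, Finsupp.prod_zero_index]
    · intro i
      rw [pow_zero]
    · intro i b c
      rw [pow_add]
  rw [Finset.prod_congr rfl fun j _ => h5 j, monomial_eq, C_1, one_mul, Finsupp.prod_fintype]
  · rw [Fintype.prod_sigma]
  · intro i
    rw [pow_zero]

/-- the value of the point on a word of rows -/
theorem mulVec_ptM (E : ∀ j, Bundle K (r j)) (P : Place ℂ K) (ξ : ∀ j, Fin (r j) → ℂ) {N : ℕ}
    (t : Fin N → Fin l) (B : Matrix (Wd r t) (Wd r t) K)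
    (hB : ∀ I J, B I J = ∏ k, (E (t k)).B P (I k) (J k)) (I : Wd r t) :
    B.mulVec (fun J => ∏ k, ptM E P ξ ⟨t k, J k⟩) I = algebraMap ℂ K (∏ k, ξ (t k) (I k)) := by
  classical
  rw [Matrix.mulVec, dotProduct]
  have h1 : ∀ J : Wd r t, B I J * ∏ k, ptM E P ξ ⟨t k, J k⟩ =
      ∏ k, (E (t k)).B P (I k) (J k) * ptM E P ξ ⟨t k, J k⟩ := by
    intro J
    rw [hB, Finset.prod_mul_distrib]
  rw [Finset.sum_congr rfl fun J _ => h1 J]
  have h2 := Finset.prod_univ_sum (fun k => (Finset.univ : Finset (Fin (r (t k)))))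
    (fun k i => (E (t k)).B P (I k) i * ptM E P ξ ⟨t k, i⟩)
  rw [Fintype.piFinset_univ] at h2
  rw [← h2, map_prod]
  refine Finset.prod_congr rfl fun k _ => ?_
  have h3 : ((E (t k)).B P).mulVec (pt (E (t k)) P (ξ (t k))) (I k) =
      algebraMap ℂ K (ξ (t k) (I k)) := by
    rw [pt, Matrix.mulVec_mulVec, Matrix.mul_nonsing_inv _
      (isUnit_iff_ne_zero.2 ((E (t k)).det_ne P)), Matrix.one_mulVec]
  exact h3

/-- the modification of a word at a point -/
theorem modify [IsFF ℂ K] (hWRD : S_WRD) (hMOD : S_MOD) (E : ∀ j, Bundle K (r j)) (μ : Fin l → ℝ)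
    (hr : ∀ j, 0 < r j) (hμ : ∀ j, SL (toBn (E j)) (μ j)) (a : Fin l → ℕ) (b : Place ℂ K →₀ ℤ)
    (hab : 0 < ∑ j, a j * μ j + ddeg b) (P1 : Place ℂ K) (ξ : ∀ j, Fin (r j) → ℂ)
    (hξ : ∀ j, ξ j ≠ 0) :
    ∃ F : Bn K (Wd r (tw a)), SL F (-ddeg b : ℤ) ∧
      ∀ P (I : Wd r (tw a)), GeM P 0 (locM E P (pw (tw a) (F.B P I))) ∧
        (P = P1 → Ge P 1 (eval (ptM E P ξ) (pw (tw a) (F.B P I)))) := by
  classical
  obtain ⟨H, hH, hS⟩ := hWRD E μ hr hμ _ (tw a)
  rw [tw_sum] at hS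
  obtain ⟨F, hF1, hF2, hF3, U, hU, hUF⟩ := hMOD H (-ddeg b) P1
    (fun J => ∏ k, ptM E P1 ξ ⟨tw a k, J k⟩) (fun I => by
      rw [mulVec_ptM E P1 ξ (tw a) (H.B P1) (hH P1) I]
      exact ge_const _) (by
      have h1 : ∀ j, ∃ i, ξ j i ≠ 0 := fun j => Function.ne_iff.1 (hξ j)
      choose i hi using h1
      refine ⟨fun k => i (tw a k), ?_⟩
      rw [mulVec_ptM E P1 ξ (tw a) (H.B P1) (hH P1)]
      have h2 : ∏ k, ξ (tw a k) (i (tw a k)) ≠ 0 := Finset.prod_ne_zero_iff.2 fun k _ => hi _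
      exact ⟨(map_ne_zero _).2 h2, P1.ord_const h2⟩) (by
      intro ρ Λ d hρ hd
      have h1 := hS ρ Λ d hρ hd
      have h2 : (0 : ℝ) < ρ := by exact_mod_cast hρ
      have h3 : ((-ddeg b * ρ : ℤ) : ℝ) < (ddeg d : ℤ) := by
        push_cast
        nlinarith
      have h4 : -ddeg b * ρ < ddeg d := by exact_mod_cast h3
      omega)
  have hrow : ∀ P (I : Wd r (tw a)), H.B P I =
      fun J => ∏ k, (E (tw a k)).B P (I k) (J k) := fun P I => funext fun J => hH P I J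
  refine ⟨F, hF1, fun P I => ⟨?_, ?_⟩⟩
  · by_cases hP : P = P1
    · subst hP
      have h1 : F.B P I = fun J => ∑ I', U I I' * H.B P I' J := by
        rw [hUF]
        rfl
      rw [h1, pw_comb, locM_sum]
      refine GeM.sum _ fun I' _ => ?_
      rw [locM_mul, locM_C, hrow, locM_pw_row]
      have h2 := (geM_C (σ := Vr r) (hU I I')).mul (GeM.prod0 Finset.univ
        (s := fun k => (X ⟨tw a k, I' k⟩ : MvPolynomial (Vr r) K)) fun k _ => geM_X (P := P) _)
      rwa [add_zero] at h2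
    · rw [hF2 P hP, hrow, locM_pw_row, mon]
      exact GeM.prod0 Finset.univ fun k _ => geM_X _
  · intro hP
    subst hP
    rw [eval_pw]
    exact hF3 I

theorem pw3 {N1 N2 N3 : ℕ} (t1 : Fin N1 → Fin l) (t2 : Fin N2 → Fin l) (t3 : Fin N3 → Fin l)
    (w1 : Wd r t1 → K) (w2 : Wd r t2 → K) (w3 : Wd r t3 → K) :
    pw t1 w1 * pw t2 w2 * pw t3 w3 = ∑ J3, ∑ J : Wd r t1 × Wd r t2,
      C (w1 J.1 * w2 J.2 * w3 J3) * (mon t1 J.1 * mon t2 J.2 * mon t3 J3) := by
  rw [pw, pw, pw, Finset.sum_mul_sum, ← Fintype.sum_prod_type', Finset.mul_sum]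
  refine Finset.sum_congr rfl fun J3 _ => ?_
  rw [Finset.sum_mul]
  refine Finset.sum_congr rfl fun J _ => ?_
  rw [map_mul, map_mul]
  ring

/-- **Package CORE.** -/
theorem core (hOBS : S_OBS) (hWRD : S_WRD) (hMOD : S_MOD) (hTEN : S_TEN) (hBIL : S_BIL) :
    S_CORE := by
  classical
  intro K _ _ _ l r W hW E μ hr hμ a1 a2 a3 b1 b2 b3 h1 h2 h3 P1 P2 ξ1 ξ2 hξ1 hξ2 G hG e he hGe
    hx P0 s0 hs0 hs0'
  by_contra hcon
  push Not at hcon
  obtain ⟨φ, ⟨α, hα, hφα⟩, hφ⟩ := hOBS hW E (a1 + a2 + a3) (b1 + b2 + b3) G hG e he hGe P0 s0 hs0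
    hs0' hcon
  obtain ⟨F1, hF1, hF1'⟩ := modify hWRD hMOD E μ hr hμ a1 b1 h1 P1 ξ1 hξ1
  obtain ⟨F2, hF2, hF2'⟩ := modify hWRD hMOD E μ hr hμ a2 b2 h2 P2 ξ2 hξ2
  obtain ⟨F3, hF3', hF3⟩ := hWRD E μ hr hμ _ (tw a3)
  rw [tw_sum] at hF3
  have hne : ∀ {N : ℕ} (t : Fin N → Fin l), Nonempty (Wd r t) := fun t => ⟨fun k => ⟨0, hr _⟩⟩
  obtain ⟨H, hH, hHS⟩ := hTEN F1 F2 _ _ (hne _) (hne _) hF1 hF2
  let T : Matrix (Wd r (tw a1) × Wd r (tw a2)) (Wd r (tw a3)) K :=
    Matrix.of fun I I3 => φ (mon (tw a1) I.1 * mon (tw a2) I.2 * mon (tw a3) I3)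
  have hT : T ≠ 0 := by
    intro h0
    obtain ⟨I1, I2, I3, hI⟩ := exists_words (K := K) a1 a2 a3 α hα
    apply hφα
    rw [← hI]
    exact congrFun (congrFun h0 (I1, I2)) I3
  have hval : ∀ P i j, (H.B P * T * (F3.B P).transpose) i j =
      φ (pw (tw a1) (F1.B P i.1) * pw (tw a2) (F2.B P i.2) * pw (tw a3) (F3.B P j)) := by
    intro P i j
    rw [pw3, map_sum, Matrix.mul_apply]
    refine Finset.sum_congr rfl fun J3 _ => ?_
    rw [map_sum, Matrix.mul_apply, Finset.sum_mul]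
    refine Finset.sum_congr rfl fun J _ => ?_
    rw [← smul_eq_C_mul, map_smul, smul_eq_mul, hH P, Matrix.transpose_apply]
    change F1.B P i.1 J.1 * F2.B P i.2 J.2 *
      φ (mon (tw a1) J.1 * mon (tw a2) J.2 * mon (tw a3) J3) * F3.B P j J3 = _
    ring
  have hfin := hBIL H F3 _ _ hHS hF3 T hT (W - (b1 + b2 + b3)) (by
    intro P i j
    rw [hval]
    obtain ⟨t, ht0, ht⟩ := P.surj
    have hu : Ge P (-(b1 + b2 + b3) P) (t ^ (-(b1 + b2 + b3) P)) := by
      refine Or.inr ?_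
      rw [P.ord_zpow, ht, mul_one]
    have hi3 : GeM P 0 (locM E P (pw (tw a3) (F3.B P j))) := by
      have hrow : F3.B P j = fun J => ∏ k, (E (tw a3 k)).B P (j k) (J k) :=
        funext fun J => hF3' P j J
      rw [hrow, locM_pw_row, mon]
      exact GeM.prod0 Finset.univ fun k _ => geM_X _
    have h4 := hφ P (C (t ^ (-(b1 + b2 + b3) P)) * (pw (tw a1) (F1.B P i.1) *
      pw (tw a2) (F2.B P i.2) * pw (tw a3) (F3.B P j)))
      (IsMh.Cmul (IsMh.mul' (IsMh.mul' (pw_mh _ _ (tw_card a1)) (pw_mh _ _ (tw_card a2)))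
        (pw_mh _ _ (tw_card a3))) _) (by
        intro β
        rw [locM_mul, locM_C, locM_mul, locM_mul]
        have h5 := (geM_C (σ := Vr r) hu).mul ((((hF1' P i.1).1).mul ((hF2' P i.2).1)).mul hi3)
        have h6 := h5 β
        simpa using h6)
      (hx P _ _ _ _ (pw_mh _ _ (tw_card a1)) (pw_mh _ _ (tw_card a2)) (pw_mh _ _ (tw_card a3))
        (hF1' P i.1).1 (hF2' P i.2).1 hi3 (hF1' P i.1).2 (hF2' P i.2).2 hu)
    rw [← smul_eq_C_mul, map_smul, smul_eq_mul] at h4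
    refine Ge.of_mul (a := t ^ (-(b1 + b2 + b3) P)) (zpow_ne_zero _ ht0) (h4.mono (le_of_eq ?_))
    rw [P.ord_zpow, ht, mul_one, Finsupp.sub_apply]
    ring)
  rw [ddeg_sub, ddeg_add, ddeg_add] at hfin
  push_cast at hfin
  linarith

end Pool.Agent.Helper80.PP
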